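import Pool.Agent.helper34.DT.Spec

/-!
# Module AC: rational components of an element of the Lie algebra
-/

set_option autoImplicit false

namespace Pool.Agent.HC.DT

open Pool.Agent.HC

noncomputable section

/-- `η ↦ der X η` as a linear map -/
def AC_derL {V : Type} [AddCommGroup V] [Module ℝ V] {n : ℕ} (X : V →ₗ[ℝ] V) :
    (V [⋀^Fin n]→ₗ[ℝ] ℝ) →ₗ[ℝ] (V [⋀^Fin n]→ₗ[ℝ] ℝ) where
  toFun := der X
  map_add' := by
    intro η η'
    ext v
    simp only [der_apply, AlternatingMap.add_apply, Finset.sum_add_distrib]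
  map_smul' := by
    intro c η
    ext v
    simp only [der_apply, AlternatingMap.smul_apply, Finset.smul_sum, RingHom.id_apply]

theorem AC_indep {m : ℕ} (c : Fin m → ℝ) (h : LinearIndependent ℚ c) (q : Fin m → ℚ)
    (hq : ∑ i, c i * (q i : ℝ) = 0) : ∀ i, q i = 0 := by
  rw [Fintype.linearIndependent_iff] at h
  apply h q
  rw [← hq]
  refine Finset.sum_congr rfl fun i _ => ?_
  rw [Rat.smul_def, mul_comm]

theorem AC_sum_apply {V : Type} [AddCommGroup V] [Module ℝ V] {n : ℕ} {ι : Type} (s : Finset ι)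
    (f : ι → V [⋀^Fin n]→ₗ[ℝ] ℝ) (v : Fin n → V) : (∑ i ∈ s, f i) v = ∑ i ∈ s, f i v := by
  classical
  induction s using Finset.induction_on with
  | empty => simp
  | insert a s ha ih => rw [Finset.sum_insert ha, Finset.sum_insert ha, AlternatingMap.add_apply, ih]

theorem AC_der_sum {W : Type} [NormedAddCommGroup W] [NormedSpace ℂ W] {m : ℕ} (c : Fin m → ℝ)
    (Y : Fin m → (W →L[ℝ] W)) (k n : ℕ) (η : (Fin k → W) [⋀^Fin n]→ₗ[ℝ] ℝ) :
    der (powMap k ((∑ i, c i • Y i : W →L[ℝ] W) : W →ₗ[ℝ] W)) η =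
      ∑ i, c i • der (powMap k (Y i : W →ₗ[ℝ] W)) η := by
  ext v
  have h1 : ∀ w : Fin k → W, powMap k ((∑ i, c i • Y i : W →L[ℝ] W) : W →ₗ[ℝ] W) w =
      ∑ i, c i • powMap k (Y i : W →ₗ[ℝ] W) w := by
    intro w
    funext j
    rw [powMap_apply, Finset.sum_apply]
    simp only [ContinuousLinearMap.coe_coe, _root_.sum_apply, Pi.smul_apply,
      powMap_apply, _root_.smul_apply]
  rw [der_apply, AC_sum_apply]
  simp only [AlternatingMap.smul_apply, der_apply, h1, smul_eq_mul, Finset.mul_sum]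
  rw [Finset.sum_comm]
  refine Finset.sum_congr rfl fun j _ => ?_
  rw [AlternatingMap.map_update_sum]
  refine Finset.sum_congr rfl fun i _ => ?_
  rw [AlternatingMap.map_update_smul, smul_eq_mul]

theorem AC (hAR : AR_stmt) (hAP : AP_stmt) (hAD : AD_stmt) : AC_stmt := by
  intro W _ _ _ Lam ψ hL hψ m c Y hc hY hsum i
  refine ⟨?_, ?_⟩
  · -- the form `ψ`
    let B : Fin m → W → W → ℝ := fun i v w => ψ (Y i v) w + ψ v (Y i w)
    have hrat : ∀ i, ∀ v ∈ Lam, ∀ w ∈ Lam, ∃ q : ℚ, B i v w = q := by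
      intro i v hv w hw
      have key : ∀ v ∈ Lam, ∀ w ∈ Lam, ∃ q : ℚ, ψ (Y i v) w = q := by
        intro v hv w hw
        obtain ⟨n, hn, hnv⟩ := hY i v hv
        obtain ⟨z, hz⟩ := hψ.int _ hnv w hw
        refine ⟨(z : ℚ) / n, ?_⟩
        have hn' : (n : ℝ) ≠ 0 := by exact_mod_cast hn
        have h2 : ψ (n • Y i v) w = (n : ℝ) * ψ (Y i v) w := by
          rw [map_nsmul, LinearMap.smul_apply, nsmul_eq_mul]
        rw [h2] at hz
        push_cast
        field_simp
        linarith
      have hskew : ∀ v w, ψ v w = - ψ w v := by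
        intro v w
        have h3 := hψ.alt (v + w)
        simp only [map_add, LinearMap.add_apply, hψ.alt] at h3
        linarith
      obtain ⟨q₁, h₁⟩ := key v hv w hw
      obtain ⟨q₂, h₂⟩ := key w hw v hv
      refine ⟨q₁ - q₂, ?_⟩
      simp only [B]
      rw [hskew v (Y i w), h₁, h₂]
      push_cast
      ring
    have hlat : ∀ v ∈ Lam, ∀ w ∈ Lam, B i v w = 0 := by
      intro v hv w hw
      choose q hq using fun i => hrat i v hv w hw
      have h4 := hsum.1 v w
      have h5 : ∑ i, c i * (q i : ℝ) = 0 := by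
        rw [← h4]
        simp only [_root_.sum_apply, _root_.smul_apply, map_sum, map_smul, LinearMap.sum_apply,
          LinearMap.smul_apply, smul_eq_mul]
        rw [← Finset.sum_add_distrib]
        refine Finset.sum_congr rfl fun j _ => ?_
        rw [← hq j]
        simp only [B]
        ring
      rw [hq i, AC_indep c hc q h5 i]
      simp
    have hspan : ∀ v w, B i v w = 0 := by
      let BL : W →ₗ[ℝ] W →ₗ[ℝ] ℝ := ψ ∘ₗ (Y i : W →ₗ[ℝ] W) +
        (LinearMap.lcomp ℝ ℝ (Y i : W →ₗ[ℝ] W)) ∘ₗ ψ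
      have hBL : ∀ v w, BL v w = B i v w := fun v w => rfl
      have h6 : ∀ v ∈ Lam, BL v = 0 := by
        intro v hv
        have h7 : Submodule.span ℝ (Lam : Set W) ≤ LinearMap.ker (BL v) := by
          rw [Submodule.span_le]
          intro w hw
          exact hlat v hv w hw
        rw [hL.span] at h7
        ext w
        exact h7 (Submodule.mem_top : w ∈ ⊤)
      have h8 : Submodule.span ℝ (Lam : Set W) ≤ LinearMap.ker BL := by
        rw [Submodule.span_le]
        intro v hv
        exact h6 v hv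
      rw [hL.span] at h8
      intro v w
      rw [← hBL]
      have h9 : BL v = 0 := h8 (Submodule.mem_top : v ∈ ⊤)
      rw [h9]
      rfl
    exact hspan
  · intro k a ξ hξ η
    have hz : ξ ∘ₗ AC_derL (powMap k (Y i : W →ₗ[ℝ] W)) = 0 := by
      refine hAR (Fin k → W) (powLat k Lam) (hAP W Lam hL k) (2 * a) _ ?_
      intro η hη
      choose q hq using fun i => hξ.rat _ (hAD W Lam (Y i) (hY i) k (2 * a) η hη)
      have h4 := hsum.2 k a ξ hξ η
      rw [AC_der_sum, map_sum] at h4
      have h5 : ∑ i, c i * (q i : ℝ) = 0 := by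
        rw [← h4]
        refine Finset.sum_congr rfl fun j _ => ?_
        rw [map_smul, smul_eq_mul, hq j]
      change ξ (der (powMap k (Y i : W →ₗ[ℝ] W)) η) = 0
      rw [hq i, AC_indep c hc q h5 i]
      simp
    exact LinearMap.congr_fun hz η

end

end Pool.Agent.HC.DT
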